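import Pool.Agent.H.MP_dbe012_pr.A

/-! No independent noise yields third degree inverse stochastic dominance for a reflected Bernoulli pair. -/

open MeasureTheory ProbabilityTheory Set

namespace Pool.Agent.Results.MP_dbe012_pr.NoNoise

/-- `F μ n` is the `n`-fold integrated quantile function, of degree `n + 1` -/
noncomputable def F (μ : Measure ℝ) : ℕ → ℝ → ℝ
  | 0, p => sInf {x | p ≤ cdf μ x}
  | n + 1, p => ∫ u in (0 : ℝ)..p, F μ n u

/-- mean of the minimum of `k` independent copies -/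
noncomputable def mm (μ : Measure ℝ) (k : ℕ) : ℝ := k * ∫ u in (0 : ℝ)..1, F μ 0 u * (1 - u) ^ (k - 1)

theorem result : ∃ X Y : Measure ℝ, IsProbabilityMeasure X ∧ IsProbabilityMeasure Y ∧
    Integrable id X ∧ Integrable id Y ∧ mm X 1 = mm Y 1 ∧ mm X 2 = mm Y 2 ∧ mm Y 3 < mm X 3 ∧
    ∀ Z : Measure ℝ, IsProbabilityMeasure Z → Integrable id Z →
      ∃ p ∈ Ioo (0 : ℝ) 1, F (Y ∗ Z) 2 p < F (X ∗ Z) 2 p :=
  Pool.Agent.H.MP_dbe012_pr.main

end Pool.Agent.Results.MP_dbe012_pr.NoNoise
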